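import Pool.Agent.TH825.Nahm.All

/-!
# Nahm's conjecture, direction `torsion in the Bloch group implies modularity`, is false

The counterexample has rank 13. With `n = (n₀, n₁, n₂, n₃, v₁, …, v₉)`,
`½ nᵗAn = n₀n₁ + n₂n₃ + 2u₁² - u₁u₂ + 2u₂² + ½ ∑ v_j²`,
`u₁ = n₀ - n₁ + ∑ c_{1j} v_j`, `u₂ = n₂ - n₃ + ∑ c_{2j} v_j`,
`8c₁ = (0,-1,-1,-2,-2,-2,-4,2,1)`, `8c₂ = (-3,0,-1,0,-1,-2,1,-1,-4)`
(the matrix `A13` of `Pool.Agent.TH825.Nahm.Defs`).

All solutions of Nahm's equations have `x_{v_j} = χ_j/(1+χ_j)` with `χ_j` eighth roots of unity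
indexed by `a ∈ (ℤ/8)²`; only `5` of the `64` classes are allowed, and for four of them
(`a = ±(1,-1), ±(3,-3)`) the class is torsion because of the distribution relation
`2[y] + 2[-y] = [y²]`.  The series is an explicit theta-like sum of products
`∏_j (-χ_j q^{x_j}; q)_∞`; modularity for some `B, C` forces (asymptotics at the cusp `0` along
the real axis and along rays close to the imaginary `ε`-axis, `q = e^{-ε}`) that all `x_j = 0`,
and then the four exceptional classes contribute the phase `∑ (-1)^n arctan(e^{-nε})`, which is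
not constant up to exponentially small terms.
-/

namespace Pool.Agent.Results.MP_5c0a0e_nt.TorsionNotModular

open Pool.Agent.TH825.Nahm
open scoped UpperHalfPlane

/-- There is a positive definite symmetric rational matrix `A` (of size `13`) such that for every
solution `x` of Nahm's equations `ξ_x` lies in `G(F)`, `F = ℚ(x_1, …, x_13)`, and a positive
multiple of `ξ_x` lies in the subgroup generated by the elements `[x] + [1-x]` and the five-term
elements (so its class in the Bloch group is torsion), but for all rational `B`, `C` the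
(absolutely convergent) series `f_{A,B,C}` is not invariant under any subgroup of finite index
of `SL(2, ℤ)`. -/
theorem result : ∃ A : Matrix (Fin 13) (Fin 13) ℚ,
    (A.map (fun q : ℚ => (q : ℝ))).PosDef ∧
    (∀ (x : Fin 13 → ℂ) (hx : IsNahmSolution A x),
      xi (fun i => hx.ne i) ∈ GF (fieldOf x) ∧
      ∃ n : ℕ, 0 < n ∧ n • xi (fun i => hx.ne i) ∈ relSub (fieldOf x)) ∧
    ∀ (B : Fin 13 → ℚ) (C : ℚ), (∀ τ : ℍ, Summable (nahmTerm A B C (τ : ℂ))) ∧
      ¬ IsModularFn (nahmSum A B C) :=
  ⟨A13, All.final⟩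

end Pool.Agent.Results.MP_5c0a0e_nt.TorsionNotModular
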